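import Mathlib
import Pool.Agent.Lib.MP_36fd63_nt.H62Code

set_option autoImplicit false

namespace Pool.Agent.Results.MP_36fd63_nt.SuperPolylogThree

open Pool.Agent.Lib.MP_36fd63_nt

/-- For every `k ≥ 3` and every `D` there are arbitrarily large finite sets `B` of integers such
that every finite set `C` of nonnegative integers whose `k`-fold sumset contains all nonnegative
elements of the `k`-fold sumset of `B` has at least `|B| (log |B|) ^ D` elements. -/
theorem result (k : ℕ) (hk : 3 ≤ k) (D n₀ : ℕ) : ∃ B : Finset ℤ, n₀ < B.card ∧ ∀ C : Finset ℕ,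
    (∀ a : ℕ, (∃ b : Fin k → ℤ, (∀ i, b i ∈ B) ∧ ∑ i, b i = (a : ℤ)) →
      ∃ c : Fin k → ℕ, (∀ i, c i ∈ C) ∧ ∑ i, c i = a) →
    (B.card : ℝ) * Real.log B.card ^ D ≤ C.card := by
  obtain ⟨B, h1, h2⟩ := main3 (k - 3) D n₀
  let e : Option Bool ⊕ Fin (k - 3) ≃ Fin k := Fintype.equivFinOfCardEq (by simp; omega)
  refine ⟨B, h1, fun C hC => h2 C fun a ⟨f, hf, ha⟩ => ?_⟩
  obtain ⟨c, hc, hca⟩ := hC a ⟨f ∘ e.symm, fun i => hf _, (e.symm.sum_comp f).trans ha⟩
  exact ⟨c ∘ e, fun i => hc _, (e.sum_comp c).trans hca⟩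

end Pool.Agent.Results.MP_36fd63_nt.SuperPolylogThree
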